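import Pool.Agent.R640.CFTree

/-!
# Context-free Schützenberger automata imply tree-like (MP_546eea_al, Q1, positive answer)

A derivation tree of a context-free grammar triangulates each loop at the base vertex of the
Schützenberger graph of `w`: for a loop which consists of a geodesic from the base vertex `o` to
`x`, a path `p` from `x` to `y` and a geodesic from `y` to `o` there are vertices of the three parts
which are pairwise at bounded distance. Hence `p` contains a vertex whose distance from `o`
exceeds the Gromov product of `x` and `y` only by a constant. So, up to a constant, the Gromov
product is the largest `n` such that `x` and `y` are in the same component of the complement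
of the ball of radius `n` at `o`, and the graph is quasi-isometric to the tree of these components.
-/

set_option autoImplicit false

namespace Pool.Agent.Results.MP_546eea_al.ContextFreeTreeLike

open Pool.Agent.R640.IM

/-- If all Schützenberger automata of the inverse monoid `Inv⟨A ∣ R⟩` have context-free languages,
then the inverse monoid is tree-like. (Finiteness of `A` and `R` is not needed.) -/
theorem result (A : Type) (R : Set (List (A × Bool) × List (A × Bool)))
    (h : ∀ w : List (A × Bool), (lang R w).IsContextFree) : TreeLike R :=
  treeLike_of_cf h

end Pool.Agent.Results.MP_546eea_al.ContextFreeTreeLike
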